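import Mathlib
import Pool.Agent.Helper78.LmdDefs
import Pool.Agent.Helper78.LmdMain

/-!
# Computing the local metric dimension of planar graphs is NP-hard

The definitions (planar drawings, local metric generators, local metric dimension and the decision
problem `LMDPlanar`) are in `Pool.Agent.Helper78.LmdDefs`; decision problems, the class NP and
polynomial-time many-one reductions are in `Pool.Agent.Helper81.Complexity`.
-/

namespace Pool.Agent.Results.MP_6d1543_lc.PlanarHard

open Pool.Agent.Helper78.LMD

/-- LOCAL METRIC DIMENSION ON PLANAR GRAPHS is NP-hard: every decision problem in NP is reducible to
it by a polynomial-time computable many-one reduction. -/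
theorem result : LMDPlanar.NPHard := lmd_npHard

end Pool.Agent.Results.MP_6d1543_lc.PlanarHard
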